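import Pool.Agent.Helper41.OA.Defs

set_option autoImplicit false

/-!
# Project OA, piece OA-4: Paley's inequality
-/

namespace Pool.Agent.Helper90.OA

open Finset
open Pool.Agent.Helper41.OA

/-- the exponential `θ ↦ exp (i m θ)` -/
noncomputable def ee (m : ℤ) : C(ℝ, ℂ) :=
  ⟨fun θ => Complex.exp (m * Complex.I * θ), by fun_prop⟩

theorem ee_apply (m : ℤ) (θ : ℝ) : ee m θ = Complex.exp (m * Complex.I * θ) := rfl

theorem ee_mul (m k : ℤ) : ee m * ee k = ee (m + k) := by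
  ext θ
  simp only [ContinuousMap.mul_apply, ee_apply]
  rw [← Complex.exp_add]
  congr 1
  push_cast
  ring

theorem norm_ee (m : ℤ) (θ : ℝ) : ‖ee m θ‖ = 1 := by
  have : (m : ℂ) * Complex.I * θ = ((m * θ : ℝ) : ℂ) * Complex.I := by push_cast; ring
  rw [ee_apply, this, Complex.norm_exp_ofReal_mul_I]

theorem conj_ee (m : ℤ) (θ : ℝ) : (starRingEnd ℂ) (ee (-m) θ) = ee m θ := by
  simp only [ee_apply, ← Complex.exp_conj]
  congr 1
  simp

/-- the trigonometric polynomials with frequencies at least `N` -/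
noncomputable def SS (N : ℤ) : Submodule ℂ C(ℝ, ℂ) := Submodule.span ℂ (ee '' {m | N ≤ m})

theorem SS_mono {N M : ℤ} (h : N ≤ M) : SS M ≤ SS N :=
  Submodule.span_mono (Set.image_mono fun _ hm => h.trans hm)

theorem ee_mem {N m : ℤ} (h : N ≤ m) : ee m ∈ SS N := Submodule.subset_span ⟨m, h, rfl⟩

theorem SS_mul {N M : ℤ} {F G : C(ℝ, ℂ)} (hF : F ∈ SS N) (hG : G ∈ SS M) :
    F * G ∈ SS (N + M) := by
  have h := Submodule.mul_mem_mul hF hG
  rw [SS, SS, Submodule.span_mul_span] at h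
  refine (Submodule.span_le.2 ?_) h
  rintro _ ⟨_, ⟨m, hm, rfl⟩, _, ⟨k, hk, rfl⟩, rfl⟩
  simp only [ee_mul]
  exact ee_mem (add_le_add hm hk)

/-- the recursion -/
noncomputable def GG (τ : ℕ → ℂ) (n : ℕ → ℕ) : ℕ → C(ℝ, ℂ)
  | 0 => 0
  | k + 1 => ((Real.exp (-2 * ‖τ k‖ ^ 2) : ℝ) : ℂ) • (GG τ n k + τ k • ee (-(n k : ℤ)) -
      (starRingEnd ℂ (τ k)) • (ee (n k) * GG τ n k * GG τ n k))

theorem norm_step (F Z : ℂ) (hF : ‖F‖ ≤ 1) :
    ‖F + Z - (starRingEnd ℂ) Z * F ^ 2‖ ^ 2 ≤ 1 + 4 * ‖Z‖ ^ 2 := by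
  have hF2 : Complex.normSq F ≤ 1 := by
    rw [Complex.normSq_eq_norm_sq]
    exact pow_le_one₀ (norm_nonneg _) hF
  rw [← Complex.normSq_eq_norm_sq, ← Complex.normSq_eq_norm_sq]
  obtain ⟨a, b⟩ := F
  obtain ⟨x, y⟩ := Z
  simp only [Complex.normSq_apply, Complex.sub_re, Complex.sub_im, Complex.add_re, Complex.add_im,
    Complex.mul_re, Complex.mul_im, Complex.conj_re, Complex.conj_im, pow_two] at hF2 ⊢
  have hf : 0 ≤ a * a + b * b := add_nonneg (mul_self_nonneg _) (mul_self_nonneg _)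
  have hz : 0 ≤ x * x + y * y := add_nonneg (mul_self_nonneg _) (mul_self_nonneg _)
  have hp : (a * x + b * y) ^ 2 ≤ (x * x + y * y) * (a * a + b * b) := by
    nlinarith [sq_nonneg (a * y - b * x)]
  have key : 0 ≤ (1 - (a * a + b * b)) *
      (1 + (x * x + y * y) * (3 + (a * a + b * b)) - 2 * (a * x + b * y)) +
      4 * (a * x + b * y) ^ 2 := by
    have h1 : 0 ≤ 1 + (x * x + y * y) * (3 + (a * a + b * b)) - 2 * (a * x + b * y) := by
      nlinarith [sq_nonneg (1 - (a * x + b * y))]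
    have h2 : 0 ≤ 1 - (a * a + b * b) := by linarith
    positivity
  nlinarith [key]

theorem GG_norm (τ : ℕ → ℂ) (n : ℕ → ℕ) (k : ℕ) (θ : ℝ) : ‖GG τ n k θ‖ ≤ 1 := by
  induction k with
  | zero => simp [GG]
  | succ k ih =>
    have e : GG τ n (k + 1) θ = ((Real.exp (-2 * ‖τ k‖ ^ 2) : ℝ) : ℂ) *
        (GG τ n k θ + τ k * ee (-(n k : ℤ)) θ -
          (starRingEnd ℂ) (τ k * ee (-(n k : ℤ)) θ) * GG τ n k θ ^ 2) := by
      rw [map_mul, conj_ee]
      simp only [GG, ContinuousMap.smul_apply, ContinuousMap.sub_apply, ContinuousMap.add_apply,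
        ContinuousMap.mul_apply, smul_eq_mul]
      ring
    have h1 := norm_step (GG τ n k θ) (τ k * ee (-(n k : ℤ)) θ) ih
    rw [norm_mul, norm_ee, mul_one] at h1
    have h2 : ‖GG τ n (k + 1) θ‖ ^ 2 ≤ 1 := by
      rw [e, norm_mul, mul_pow, Complex.norm_real, Real.norm_eq_abs,
        abs_of_pos (Real.exp_pos _)]
      have h3 : Real.exp (-2 * ‖τ k‖ ^ 2) ^ 2 * (1 + 4 * ‖τ k‖ ^ 2) ≤ 1 := by
        have h4 : 4 * ‖τ k‖ ^ 2 + 1 ≤ Real.exp (4 * ‖τ k‖ ^ 2) := Real.add_one_le_exp _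
        have h5 : Real.exp (-2 * ‖τ k‖ ^ 2) ^ 2 * Real.exp (4 * ‖τ k‖ ^ 2) = 1 := by
          rw [← Real.exp_nat_mul, ← Real.exp_add]
          rw [show ((2 : ℕ) : ℝ) * (-2 * ‖τ k‖ ^ 2) + 4 * ‖τ k‖ ^ 2 = 0 by push_cast; ring,
            Real.exp_zero]
        calc Real.exp (-2 * ‖τ k‖ ^ 2) ^ 2 * (1 + 4 * ‖τ k‖ ^ 2) ≤
            Real.exp (-2 * ‖τ k‖ ^ 2) ^ 2 * Real.exp (4 * ‖τ k‖ ^ 2) :=
              mul_le_mul_of_nonneg_left (by linarith) (by positivity)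
          _ = 1 := h5
      exact (mul_le_mul_of_nonneg_left h1 (by positivity)).trans h3
    nlinarith [norm_nonneg (GG τ n (k + 1) θ)]

theorem GG_mem (τ : ℕ → ℂ) (n : ℕ → ℕ) (m : ℕ) (hn : ∀ k, k + 1 < m → 2 * n k < n (k + 1))
    (k : ℕ) (hk : k < m) : ee (n k) * GG τ n k * GG τ n k ∈ SS 1 ∧
      GG τ n (k + 1) ∈ SS (-(n k : ℤ)) := by
  have hstep : ∀ k : ℕ, GG τ n k ∈ SS (-(n k : ℤ)) → ee (n k) * GG τ n k * GG τ n k ∈ SS 1 →
      GG τ n (k + 1) ∈ SS (-(n k : ℤ)) := by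
    intro k h1 h2
    unfold GG
    refine Submodule.smul_mem _ _ (Submodule.sub_mem _ (Submodule.add_mem _ h1
      (Submodule.smul_mem _ _ (ee_mem le_rfl))) (Submodule.smul_mem _ _ (SS_mono ?_ h2)))
    omega
  induction k with
  | zero =>
    have h1 : ee (n 0) * GG τ n 0 * GG τ n 0 ∈ SS 1 := by
      simp [GG]
    exact ⟨h1, hstep 0 (by simp [GG]) h1⟩
  | succ k ih =>
    have hi := (ih (by omega)).2
    have hnk := hn k hk
    have h1 : ee (n (k + 1)) * GG τ n (k + 1) * GG τ n (k + 1) ∈ SS 1 := by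
      have h2 := SS_mul (SS_mul (ee_mem (le_refl (n (k + 1) : ℤ))) hi) hi
      refine SS_mono ?_ h2
      omega
    refine ⟨h1, hstep (k + 1) (SS_mono ?_ hi) h1⟩
    omega

/-- the mean of `u F` over the circle -/
noncomputable def Lam (u : C(ℝ, ℂ)) : C(ℝ, ℂ) →ₗ[ℂ] ℂ where
  toFun F := ((2 * Real.pi : ℝ)⁻¹ : ℂ) * ∫ θ in (0 : ℝ)..2 * Real.pi, u θ * F θ
  map_add' F G := by
    have hF : IntervalIntegrable (fun θ => u θ * F θ) MeasureTheory.volume 0 (2 * Real.pi) :=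
      (u.continuous.mul F.continuous).intervalIntegrable _ _
    have hG : IntervalIntegrable (fun θ => u θ * G θ) MeasureTheory.volume 0 (2 * Real.pi) :=
      (u.continuous.mul G.continuous).intervalIntegrable _ _
    simp only [ContinuousMap.add_apply, mul_add]
    rw [intervalIntegral.integral_add hF hG]
    ring
  map_smul' c F := by
    simp only [ContinuousMap.smul_apply, smul_eq_mul, RingHom.id_apply]
    have : ∀ θ : ℝ, u θ * (c * F θ) = c * (u θ * F θ) := fun θ => by ring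
    simp_rw [this]
    rw [intervalIntegral.integral_const_mul]
    ring

theorem Lam_apply (u F : C(ℝ, ℂ)) :
    Lam u F = ((2 * Real.pi : ℝ)⁻¹ : ℂ) * ∫ θ in (0 : ℝ)..2 * Real.pi, u θ * F θ := rfl

theorem mean_ee (j : ℤ) :
    ((2 * Real.pi : ℝ)⁻¹ : ℂ) * ∫ θ in (0 : ℝ)..2 * Real.pi, ee j θ = if j = 0 then 1 else 0 := by
  have hpi : (Real.pi : ℂ) ≠ 0 := by exact_mod_cast Real.pi_ne_zero
  split_ifs with h
  · subst h
    simp only [ee_apply, Int.cast_zero, zero_mul, Complex.exp_zero, intervalIntegral.integral_const,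
      sub_zero, Complex.real_smul, mul_one]
    push_cast
    field_simp
  · have hj : (j : ℂ) * Complex.I ≠ 0 := mul_ne_zero (by exact_mod_cast h) Complex.I_ne_zero
    simp only [ee_apply]
    rw [integral_exp_mul_complex hj]
    have h1 : (j : ℂ) * Complex.I * ((2 * Real.pi : ℝ) : ℂ) = j * (2 * Real.pi * Complex.I) := by
      push_cast; ring
    rw [h1, Complex.exp_int_mul_two_pi_mul_I]
    simp

theorem Lam_ee (c : ℕ → ℂ) (hc : Summable fun k => ‖c k‖) (u : C(ℝ, ℂ))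
    (hu : ∀ θ, HasSum (fun k => c k * ee k θ) (u θ)) (m : ℤ) :
    HasSum (fun k : ℕ => c k * if (k : ℤ) + m = 0 then 1 else 0) (Lam u (ee m)) := by
  have h1 : HasSum (fun k : ℕ => ∫ θ in (0 : ℝ)..2 * Real.pi, c k * ee (k + m) θ)
      (∫ θ in (0 : ℝ)..2 * Real.pi, u θ * ee m θ) := by
    refine intervalIntegral.hasSum_integral_of_dominated_convergence (fun k _ => ‖c k‖)
      (fun k => ?_) (fun k => ?_) ?_ ?_ ?_
    · exact ((continuous_const.mul (ee (k + m)).continuous)).aestronglyMeasurable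
    · refine Filter.Eventually.of_forall fun θ _ => ?_
      rw [norm_mul, norm_ee, mul_one]
    · exact Filter.Eventually.of_forall fun θ _ => hc
    · exact continuous_const.intervalIntegrable _ _
    · refine Filter.Eventually.of_forall fun θ _ => ?_
      have := (hu θ).mul_right (ee m θ)
      refine this.congr_fun ?_ 
      intro k
      rw [← ee_mul, ContinuousMap.mul_apply]
      ring
  have h2 := h1.mul_left ((2 * Real.pi : ℝ)⁻¹ : ℂ)
  rw [Lam_apply]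
  have e : (fun k : ℕ => c k * if (k : ℤ) + m = 0 then (1 : ℂ) else 0) = fun k : ℕ =>
      ((2 * Real.pi : ℝ)⁻¹ : ℂ) * ∫ θ in (0 : ℝ)..2 * Real.pi, c k * ee (k + m) θ := by
    funext k
    rw [intervalIntegral.integral_const_mul, ← mean_ee]
    ring
  rw [e]
  exact h2

theorem Lam_SS (c : ℕ → ℂ) (hc : Summable fun k => ‖c k‖) (u : C(ℝ, ℂ))
    (hu : ∀ θ, HasSum (fun k => c k * ee k θ) (u θ)) {F : C(ℝ, ℂ)} (hF : F ∈ SS 1) :
    Lam u F = 0 := by
  have : SS 1 ≤ LinearMap.ker (Lam u) := by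
    refine Submodule.span_le.2 ?_
    rintro _ ⟨m, hm, rfl⟩
    have hm1 : (1 : ℤ) ≤ m := hm
    show Lam u (ee m) = 0
    have h1 := Lam_ee c hc u hu m
    have h2 : (fun k : ℕ => c k * if (k : ℤ) + m = 0 then (1 : ℂ) else 0) = fun _ => 0 := by
      funext k
      rw [if_neg (by omega), mul_zero]
    rw [h2] at h1
    exact h1.unique hasSum_zero
  exact this hF

theorem Lam_neg (c : ℕ → ℂ) (hc : Summable fun k => ‖c k‖) (u : C(ℝ, ℂ))
    (hu : ∀ θ, HasSum (fun k => c k * ee k θ) (u θ)) (n : ℕ) : Lam u (ee (-(n : ℤ))) = c n := by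
  have h1 := Lam_ee c hc u hu (-(n : ℤ))
  have h2 : (fun k : ℕ => c k * if (k : ℤ) + -(n : ℤ) = 0 then (1 : ℂ) else 0) =
      fun k => if k = n then c n else 0 := by
    funext k
    by_cases h : k = n
    · subst h; simp
    · rw [if_neg h, if_neg (by omega), mul_zero]
  rw [h2] at h1
  exact h1.unique (hasSum_ite_eq n (c n))

theorem Lam_le (u F : C(ℝ, ℂ)) (hF : ∀ θ, ‖F θ‖ ≤ 1) :
    ‖Lam u F‖ ≤ (2 * Real.pi)⁻¹ * ∫ θ in (0 : ℝ)..2 * Real.pi, ‖u θ‖ := by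
  have h0 : (0 : ℝ) ≤ 2 * Real.pi := by positivity
  rw [Lam_apply, norm_mul, ← Complex.ofReal_inv, Complex.norm_real, Real.norm_eq_abs,
    abs_of_nonneg (inv_nonneg.2 h0)]
  refine mul_le_mul_of_nonneg_left ?_ (inv_nonneg.2 h0)
  refine (intervalIntegral.norm_integral_le_integral_norm h0).trans ?_
  refine intervalIntegral.integral_mono_on h0
    ((u.continuous.mul F.continuous).norm.intervalIntegrable _ _)
    (u.continuous.norm.intervalIntegrable _ _) fun θ _ => ?_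
  rw [norm_mul]
  exact mul_le_of_le_one_right (norm_nonneg _) (hF θ)

/-- the value of the functional -/
theorem Lam_GG (c : ℕ → ℂ) (hc : Summable fun k => ‖c k‖) (u : C(ℝ, ℂ))
    (hu : ∀ θ, HasSum (fun k => c k * ee k θ) (u θ)) (τ : ℕ → ℂ) (n : ℕ → ℕ) (m : ℕ)
    (hn : ∀ k, k + 1 < m → 2 * n k < n (k + 1)) (y : ℕ → ℝ) (hy : ∀ k, 0 ≤ y k)
    (hτ : ∀ k, τ k * c (n k) = (y k : ℝ)) (k : ℕ) (hk : k ≤ m) :
    ∃ s : ℝ, Lam u (GG τ n k) = (s : ℝ) ∧
      Real.exp (-2 * ∑ j ∈ range k, ‖τ j‖ ^ 2) * ∑ j ∈ range k, y j ≤ s := by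
  induction k with
  | zero => exact ⟨0, by simp [GG], by simp⟩
  | succ k ih =>
    obtain ⟨s, hs, hle⟩ := ih (by omega)
    refine ⟨Real.exp (-2 * ‖τ k‖ ^ 2) * (s + y k), ?_, ?_⟩
    · have h1 := Lam_SS c hc u hu (GG_mem τ n m hn k (by omega)).1
      have h2 := Lam_neg c hc u hu (n k)
      show Lam u (((Real.exp (-2 * ‖τ k‖ ^ 2) : ℝ) : ℂ) • (GG τ n k + τ k • ee (-(n k : ℤ)) -
        (starRingEnd ℂ (τ k)) • (ee (n k) * GG τ n k * GG τ n k))) = _
      rw [map_smul, map_sub, map_add, map_smul, map_smul, h1, h2, hs, smul_zero, sub_zero,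
        smul_eq_mul, smul_eq_mul, hτ]
      push_cast
      ring
    · rw [sum_range_succ, sum_range_succ]
      have hy1 : 0 ≤ y k := hy k
      have h3 : Real.exp (-2 * (∑ j ∈ range k, ‖τ j‖ ^ 2 + ‖τ k‖ ^ 2)) =
          Real.exp (-2 * ‖τ k‖ ^ 2) * Real.exp (-2 * ∑ j ∈ range k, ‖τ j‖ ^ 2) := by
        rw [← Real.exp_add]; congr 1; ring
      have h4 : Real.exp (-2 * ∑ j ∈ range k, ‖τ j‖ ^ 2) ≤ 1 := by
        rw [Real.exp_le_one_iff]
        have : 0 ≤ ∑ j ∈ range k, ‖τ j‖ ^ 2 := by positivity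
        linarith
      rw [h3, mul_assoc]
      refine mul_le_mul_of_nonneg_left ?_ (Real.exp_pos _).le
      rw [mul_add]
      have := mul_le_mul_of_nonneg_right h4 hy1
      linarith

theorem paley_r {g : ℂ → ℂ} {b : ℕ → ℂ} (hb : HasTaylor b g) {A : ℝ} (r : ℝ) (hr0 : 0 < r)
    (hr1 : r < 1) (hA : Real.circleAverage (fun z => ‖g z‖) 0 r ≤ A) (m : ℕ)
    (n : ℕ → ℕ) (hn : ∀ k, k + 1 < m → 2 * n k < n (k + 1)) :
    ∑ k ∈ range m, (‖b (n k)‖ * r ^ n k) ^ 2 ≤ 16 * A ^ 2 := by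
  set c : ℕ → ℂ := fun k => b k * (r : ℂ) ^ k with hcdef
  have hc : Summable fun k => ‖c k‖ := by
    have h1 := (hb r (by rw [Complex.norm_real, Real.norm_eq_abs, abs_of_pos hr0]; exact hr1))
    exact h1.summable.norm
  have hcm : ∀ (z : ℂ), ‖z‖ = 1 → HasSum (fun k => c k * z ^ k) (g (r * z)) := by
    intro z hz
    have h1 := hb (r * z) (by
      rw [norm_mul, hz, mul_one, Complex.norm_real, Real.norm_eq_abs, abs_of_pos hr0]; exact hr1)
    refine h1.congr_fun ?_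
    intro k
    simp only [hcdef]
    rw [mul_pow]; ring
  have hsum : ∀ θ : ℝ, HasSum (fun k : ℕ => c k * ee k θ) (g (circleMap 0 r θ)) := by
    intro θ
    have h1 := hcm (Complex.exp (θ * Complex.I)) (Complex.norm_exp_ofReal_mul_I θ)
    have h2 : (r : ℂ) * Complex.exp (θ * Complex.I) = circleMap 0 r θ := by
      simp [circleMap]
    rw [h2] at h1
    refine h1.congr_fun ?_
    intro k
    rw [ee_apply, ← Complex.exp_nat_mul]
    congr 2
    push_cast
    ring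
  have hcont : Continuous fun θ : ℝ => g (circleMap 0 r θ) := by
    have h1 : (fun θ : ℝ => g (circleMap 0 r θ)) = fun θ => ∑' k : ℕ, c k * ee k θ := by
      funext θ
      exact (hsum θ).tsum_eq.symm
    rw [h1]
    refine continuous_tsum (u := fun k => ‖c k‖)
      (fun k => continuous_const.mul (ee k).continuous) hc ?_
    intro k θ
    rw [norm_mul, norm_ee, mul_one]
  set u : C(ℝ, ℂ) := ⟨fun θ => g (circleMap 0 r θ), hcont⟩ with hu
  have husum : ∀ θ, HasSum (fun k : ℕ => c k * ee k θ) (u θ) := hsum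
  have hAu : ∀ F : C(ℝ, ℂ), (∀ θ, ‖F θ‖ ≤ 1) → ‖Lam u F‖ ≤ A := by
    intro F hF
    refine (Lam_le u F hF).trans (le_trans (le_of_eq ?_) hA)
    rw [Real.circleAverage_def, smul_eq_mul]
    rfl
  set x : ℕ → ℝ := fun k => ‖b (n k)‖ * r ^ n k with hx
  have hx0 : ∀ k, 0 ≤ x k := fun k => by positivity
  have hxc : ∀ k, ‖c (n k)‖ = x k := by
    intro k
    simp only [hcdef, hx]
    rw [norm_mul, norm_pow, Complex.norm_real, Real.norm_eq_abs, abs_of_pos hr0]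
  have hA0 : 0 ≤ A := by
    have := hAu 0 (fun θ => by simp)
    rw [map_zero, norm_zero] at this
    exact this
  set S : ℝ := ∑ k ∈ range m, x k ^ 2 with hS
  have hS0 : 0 ≤ S := by positivity
  rcases hS0.eq_or_lt with h0 | hSpos
  · show S ≤ _
    rw [← h0]; positivity
  set B : ℝ := √S with hB
  have hBpos : 0 < B := Real.sqrt_pos.2 hSpos
  have hBS : B ^ 2 = S := Real.sq_sqrt hS0
  -- the phases
  have hph : ∀ k, ∃ w : ℂ, ‖w‖ ≤ 1 ∧ w * c (n k) = (x k : ℝ) := by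
    intro k
    by_cases h : c (n k) = 0
    · refine ⟨0, by simp, ?_⟩
      have : x k = 0 := by rw [← hxc, h, norm_zero]
      rw [this]; simp
    · refine ⟨(starRingEnd ℂ) (c (n k)) / ‖c (n k)‖, ?_, ?_⟩
      · rw [norm_div, RCLike.norm_conj, Complex.norm_real, norm_norm, div_self]
        exact norm_ne_zero_iff.2 h
      · have h1 : (‖c (n k)‖ : ℂ) ≠ 0 := by exact_mod_cast norm_ne_zero_iff.2 h
        rw [div_mul_eq_mul_div, div_eq_iff h1, ← hxc, mul_comm, Complex.mul_conj,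
          Complex.normSq_eq_norm_sq]
        push_cast
        ring
  choose w hw1 hw2 using hph
  set τ : ℕ → ℂ := fun k => ((x k / (2 * B) : ℝ) : ℂ) * w k with hτ
  have hτn : ∀ k, ‖τ k‖ ≤ x k / (2 * B) := by
    intro k
    simp only [hτ]
    rw [norm_mul, Complex.norm_real, Real.norm_eq_abs, abs_of_nonneg (by have := hx0 k; positivity)]
    exact mul_le_of_le_one_right (by have := hx0 k; positivity) (hw1 k)
  have hτc : ∀ k, τ k * c (n k) = ((x k / (2 * B) * x k : ℝ) : ℂ) := by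
    intro k
    simp only [hτ]
    rw [mul_assoc, hw2]
    push_cast
    ring
  obtain ⟨s, hs, hle⟩ := Lam_GG c hc u husum τ n m hn (fun k => x k / (2 * B) * x k)
    (fun k => by have := hx0 k; positivity) hτc m le_rfl
  have h1 := hAu (GG τ n m) (GG_norm τ n m)
  rw [hs, Complex.norm_real, Real.norm_eq_abs] at h1
  have h2 : s ≤ A := (le_abs_self s).trans h1
  have h3 : ∑ j ∈ range m, x j / (2 * B) * x j = B / 2 := by
    have : ∀ j, x j / (2 * B) * x j = (2 * B)⁻¹ * x j ^ 2 := fun j => by ring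
    simp_rw [this]
    rw [← mul_sum, ← hS, ← hBS]
    field_simp
  have h4 : ∑ j ∈ range m, ‖τ j‖ ^ 2 ≤ 1 / 4 := by
    calc ∑ j ∈ range m, ‖τ j‖ ^ 2 ≤ ∑ j ∈ range m, (x j / (2 * B)) ^ 2 :=
          sum_le_sum fun j _ => pow_le_pow_left₀ (norm_nonneg _) (hτn j) 2
      _ = (2 * B)⁻¹ ^ 2 * S := by
          rw [hS, mul_sum]
          refine sum_congr rfl fun j _ => by ring
      _ = 1 / 4 := by rw [← hBS]; field_simp; ring
  rw [h3] at hle
  have h5 : Real.exp (-(1 / 2)) ≤ Real.exp (-2 * ∑ j ∈ range m, ‖τ j‖ ^ 2) := by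
    rw [Real.exp_le_exp]; linarith
  have h6 : (1 / 2 : ℝ) ≤ Real.exp (-(1 / 2)) := by
    have := Real.add_one_le_exp (-(1 / 2) : ℝ)
    linarith
  have h7 : 1 / 2 * (B / 2) ≤ A := by
    refine le_trans ?_ (hle.trans h2)
    exact mul_le_mul_of_nonneg_right (h6.trans h5) (by positivity)
  have h8 : B ≤ 4 * A := by linarith
  show S ≤ _
  rw [← hBS]
  nlinarith

/-- OA-4. Paley's inequality for sequences with `n (k + 1) > 2 n k`. -/
theorem paley {g : ℂ → ℂ} {b : ℕ → ℂ} (hb : HasTaylor b g) {A : ℝ}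
    (hA : ∀ r : ℝ, 0 < r → r < 1 → Real.circleAverage (fun z => ‖g z‖) 0 r ≤ A) (m : ℕ)
    (n : ℕ → ℕ) (hn : ∀ k, k + 1 < m → 2 * n k < n (k + 1)) :
    ∑ k ∈ range m, ‖b (n k)‖ ^ 2 ≤ 16 * A ^ 2 := by
  have hcont : Continuous fun r : ℝ => ∑ k ∈ range m, (‖b (n k)‖ * r ^ n k) ^ 2 := by fun_prop
  have ht : Filter.Tendsto (fun r : ℝ => ∑ k ∈ range m, (‖b (n k)‖ * r ^ n k) ^ 2)
      (nhdsWithin 1 (Set.Iio 1)) (nhds (∑ k ∈ range m, ‖b (n k)‖ ^ 2)) := by
    have h1 := hcont.tendsto 1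
    simp only [one_pow, mul_one] at h1
    exact h1.mono_left nhdsWithin_le_nhds
  refine le_of_tendsto ht ?_
  have h0 : ∀ᶠ r in nhdsWithin (1 : ℝ) (Set.Iio 1), 0 < r :=
    nhdsWithin_le_nhds (lt_mem_nhds one_pos)
  filter_upwards [h0, self_mem_nhdsWithin] with r hr0 hr1
  exact paley_r hb r hr0 hr1 (hA r hr0 hr1) m n hn

end Pool.Agent.Helper90.OA
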